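import Pool.Agent.H20.MT.Stmts

/-! # Project MTA, module A123: the sums `A1`, `A2`, `A3` -/

set_option autoImplicit false

namespace MTA
open Finset MeasureTheory

private noncomputable def a123c (W : ℕ) (k : ℕ) : ℝ :=
  if Squarefree k ∧ k.Coprime W then (1 : ℝ) / k else 0

private theorem a123_sum (W : ℕ) (N : ℕ) (h : ℕ → ℝ) :
    ∑ k ∈ Icc 0 N, h k * a123c W k =
      ∑ a ∈ (Icc 1 N).filter (fun a => Squarefree a ∧ a.Coprime W), h a / a := by
  have h0 : ∑ k ∈ Icc 0 N, h k * a123c W k = ∑ k ∈ Icc 1 N, h k * a123c W k := by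
    symm
    apply Finset.sum_subset
    · intro k hk
      rw [mem_Icc] at hk ⊢
      exact ⟨Nat.zero_le _, hk.2⟩
    · intro k hk hk'
      rw [mem_Icc] at hk hk'
      have : k = 0 := by omega
      subst this
      simp [a123c]
  rw [h0, sum_filter]
  refine Finset.sum_congr rfl fun k _ => ?_
  unfold a123c
  split_ifs
  · ring
  · ring

private theorem a123_M (W : ℕ) (t : ℝ) : ∑ k ∈ Icc 0 ⌊t⌋₊, a123c W k = Msum W t := by
  have := a123_sum W ⌊t⌋₊ (fun _ => 1)
  simp only [one_mul] at this
  exact this

private theorem a123_abel (W : ℕ) (κ C : ℝ)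
    (hM : ∀ y : ℝ, 1 ≤ y → |Msum W y - κ * Real.log y| ≤ C) (V : ℝ) (hV : 1 ≤ V)
    (f f' F : ℝ → ℝ) (hf : ∀ u, 0 ≤ u → HasDerivAt f (f' u) u)
    (hF : ∀ u, 0 ≤ u → HasDerivAt F (f u) u) (hn : ∀ u, 0 ≤ u → f' u ≤ 0)
    (hc : ContinuousOn f' (Set.Ici 0)) (hfV : 0 ≤ f (Real.log V)) :
    |∑ a ∈ SF W V, f (Real.log a) / a - κ * (F (Real.log V) - F 0)| ≤ C * f 0 := by
  have hlog : ∀ t : ℝ, t ∈ Set.Icc 1 V → 0 ≤ Real.log t := fun t ht => Real.log_nonneg ht.1
  have hd : ∀ t : ℝ, t ∈ Set.Icc 1 V →
      HasDerivAt (fun t => f (Real.log t)) (f' (Real.log t) * t⁻¹) t := by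
    intro t ht
    exact (hf _ (hlog t ht)).comp t (Real.hasDerivAt_log (by linarith [ht.1]))
  have hdF : ∀ t : ℝ, t ∈ Set.Icc 1 V →
      HasDerivAt (fun t => F (Real.log t)) (f (Real.log t) * t⁻¹) t := by
    intro t ht
    exact (hF _ (hlog t ht)).comp t (Real.hasDerivAt_log (by linarith [ht.1]))
  have hcont : ContinuousOn (fun t => f' (Real.log t) * t⁻¹) (Set.Icc 1 V) := by
    refine ContinuousOn.mul (hc.comp (Real.continuousOn_log.mono ?_) ?_) (continuousOn_inv₀.mono ?_)
    · intro t ht
      simp only [Set.mem_compl_iff, Set.mem_singleton_iff]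
      linarith [ht.1]
    · intro t ht
      exact hlog t ht
    · intro t ht
      simp only [Set.mem_compl_iff, Set.mem_singleton_iff]
      linarith [ht.1]
  have hde : Set.EqOn (deriv (fun t => f (Real.log t))) (fun t => f' (Real.log t) * t⁻¹)
      (Set.Icc 1 V) := fun t ht => (hd t ht).deriv
  have hint : IntegrableOn (deriv (fun t => f (Real.log t))) (Set.Icc 1 V) :=
    (integrableOn_congr_fun hde measurableSet_Icc).2 hcont.integrableOn_Icc
  have key := sum_mul_eq_sub_integral_mul₀ (f := fun t => f (Real.log t)) (a123c W)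
    (by simp [a123c]) V (fun t ht => (hd t ht).differentiableAt) hint
  have hsum : ∑ a ∈ SF W V, f (Real.log a) / a =
      ∑ k ∈ Icc 0 ⌊V⌋₊, (fun t : ℝ => f (Real.log t)) k * a123c W k :=
    (a123_sum W ⌊V⌋₊ (fun a => f (Real.log a))).symm
  rw [hsum, key]
  simp only [a123_M]
  -- integral of the comparison functions
  have hcomp : ∀ s : ℝ, ∫ t in Set.Ioc 1 V, deriv (fun t => f (Real.log t)) t * (κ * Real.log t + s) =
      f (Real.log V) * (κ * Real.log V + s) - κ * F (Real.log V) - (f 0 * s - κ * F 0) := by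
    intro s
    have e1 : ∫ t in Set.Ioc 1 V, deriv (fun t => f (Real.log t)) t * (κ * Real.log t + s) =
        ∫ t in Set.Ioc 1 V, (f' (Real.log t) * t⁻¹) * (κ * Real.log t + s) := by
      refine setIntegral_congr_fun measurableSet_Ioc fun t ht => ?_
      show deriv (fun t => f (Real.log t)) t * (κ * Real.log t + s) = _
      rw [hde (Set.Ioc_subset_Icc_self ht)]
    rw [e1, ← intervalIntegral.integral_of_le hV]
    have hc2 : ContinuousOn (fun t => (f' (Real.log t) * t⁻¹) * (κ * Real.log t + s))
        (Set.Icc 1 V) := by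
      refine hcont.mul ((continuousOn_const.mul (Real.continuousOn_log.mono ?_)).add
        continuousOn_const)
      intro t ht
      simp only [Set.mem_compl_iff, Set.mem_singleton_iff]
      linarith [ht.1]
    rw [intervalIntegral.integral_eq_sub_of_hasDerivAt
      (f := fun t => f (Real.log t) * (κ * Real.log t + s) - κ * F (Real.log t))]
    · simp only [Real.log_one]
      ring
    · intro t ht
      rw [Set.uIcc_of_le hV] at ht
      have h1 := hd t ht
      have h2 := hdF t ht
      have h3 : HasDerivAt (fun t => κ * Real.log t + s) (κ * t⁻¹) t :=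
        ((Real.hasDerivAt_log (by linarith [ht.1])).const_mul κ).add_const s
      refine ((h1.fun_mul h3).fun_sub (h2.const_mul κ)).congr_deriv ?_
      ring
    · apply ContinuousOn.intervalIntegrable
      rw [Set.uIcc_of_le hV]
      exact hc2
  have hi1 : ∀ s : ℝ, IntegrableOn
      (fun t => deriv (fun t => f (Real.log t)) t * (κ * Real.log t + s)) (Set.Ioc 1 V) := by
    intro s
    have hc2 : ContinuousOn (fun t => (f' (Real.log t) * t⁻¹) * (κ * Real.log t + s))
        (Set.Icc 1 V) := by
      refine hcont.mul ((continuousOn_const.mul (Real.continuousOn_log.mono ?_)).add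
        continuousOn_const)
      intro t ht
      simp only [Set.mem_compl_iff, Set.mem_singleton_iff]
      linarith [ht.1]
    refine IntegrableOn.mono_set ?_ Set.Ioc_subset_Icc_self
    refine (integrableOn_congr_fun (fun t ht => ?_) measurableSet_Icc).2 hc2.integrableOn_Icc
    show deriv (fun t => f (Real.log t)) t * (κ * Real.log t + s) = _
    rw [hde ht]
  have hi2 : IntegrableOn (fun t => deriv (fun t => f (Real.log t)) t * Msum W t)
      (Set.Ioc 1 V) := by
    have := integrableOn_mul_sum_Icc (a123c W) (m := 0) (a := 1) zero_le_one (b := V) hint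
    simp only [a123_M] at this
    exact this.mono_set Set.Ioc_subset_Icc_self
  have hdn : ∀ t ∈ Set.Ioc 1 V, deriv (fun t => f (Real.log t)) t ≤ 0 := by
    intro t ht
    rw [hde (Set.Ioc_subset_Icc_self ht)]
    have h1 := hn _ (hlog t (Set.Ioc_subset_Icc_self ht))
    have h2 : 0 ≤ t⁻¹ := inv_nonneg.2 (by linarith [ht.1])
    exact mul_nonpos_of_nonpos_of_nonneg h1 h2
  have hlo : ∫ t in Set.Ioc 1 V, deriv (fun t => f (Real.log t)) t * (κ * Real.log t + C) ≤
      ∫ t in Set.Ioc 1 V, deriv (fun t => f (Real.log t)) t * Msum W t := by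
    refine setIntegral_mono_on (hi1 C) hi2 measurableSet_Ioc fun t ht => ?_
    have h1 := abs_le.1 (hM t ht.1.le)
    exact mul_le_mul_of_nonpos_left (by linarith [h1.2]) (hdn t ht)
  have hup : ∫ t in Set.Ioc 1 V, deriv (fun t => f (Real.log t)) t * Msum W t ≤
      ∫ t in Set.Ioc 1 V, deriv (fun t => f (Real.log t)) t * (κ * Real.log t + (-C)) := by
    refine setIntegral_mono_on hi2 (hi1 (-C)) measurableSet_Ioc fun t ht => ?_
    have h1 := abs_le.1 (hM t ht.1.le)
    exact mul_le_mul_of_nonpos_left (by linarith [h1.1]) (hdn t ht)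
  rw [hcomp] at hlo hup
  have hMV := abs_le.1 (hM V hV)
  have m1 : f (Real.log V) * Msum W V ≤ f (Real.log V) * (κ * Real.log V + C) :=
    mul_le_mul_of_nonneg_left (by linarith [hMV.2]) hfV
  have m2 : f (Real.log V) * (κ * Real.log V + (-C)) ≤ f (Real.log V) * Msum W V :=
    mul_le_mul_of_nonneg_left (by linarith [hMV.1]) hfV
  rw [abs_le]
  constructor
  · linarith
  · linarith

theorem A123 : S_A123 := by
  intro W κ C hW hκ hC hM V α hV hα
  have hL : 0 ≤ Real.log V := Real.log_nonneg hV
  have hpos : ∀ u : ℝ, 0 ≤ u → 0 < 1 + α * u := fun u hu => by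
    have := mul_nonneg hα.le hu
    linarith
  -- first function
  have h1 := a123_abel W κ C hM V hV (fun u => 1 / (1 + α * u)) (fun u => -α / (1 + α * u) ^ 2)
    (fun u => Real.log (1 + α * u) / α)
    (fun u hu => by
      have hd : HasDerivAt (fun u => 1 + α * u) α u := by
        simpa using ((hasDerivAt_id u).const_mul α).const_add 1
      have := hd.fun_inv (hpos u hu).ne'
      simpa only [one_div] using this)
    (fun u hu => by
      have hd : HasDerivAt (fun u => 1 + α * u) α u := by
        simpa using ((hasDerivAt_id u).const_mul α).const_add 1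
      have hp := (hpos u hu).ne'
      refine ((hd.log hp).div_const α).congr_deriv ?_
      field_simp)
    (fun u hu => by
      have := pow_pos (hpos u hu) 2
      exact div_nonpos_of_nonpos_of_nonneg (by linarith) this.le)
    (by
      refine ContinuousOn.div continuousOn_const (by fun_prop) ?_
      intro u hu
      exact (pow_pos (hpos u hu) 2).ne')
    (by exact (one_div_pos.2 (hpos _ hL)).le)
  have h2 := a123_abel W κ C hM V hV (fun u => 1 / (1 + α * u) ^ 2)
    (fun u => -(2 * α) / (1 + α * u) ^ 3) (fun u => - 1 / (α * (1 + α * u)))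
    (fun u hu => by
      have hd : HasDerivAt (fun u => 1 + α * u) α u := by
        simpa using ((hasDerivAt_id u).const_mul α).const_add 1
      have hp := (hpos u hu).ne'
      simp only [one_div]
      refine ((hd.fun_pow 2).fun_inv (pow_pos (hpos u hu) 2).ne').congr_deriv ?_
      field_simp
      norm_num
      ring)
    (fun u hu => by
      have hd : HasDerivAt (fun u => α * (1 + α * u)) (α * α) u := by
        simpa using (((hasDerivAt_id u).const_mul α).const_add 1).const_mul α
      have hp := (hpos u hu).ne'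
      have h9 := (hd.fun_inv (mul_pos hα (hpos u hu)).ne').fun_neg
      have h8 : (fun u => -1 / (α * (1 + α * u))) = fun u => -(α * (1 + α * u))⁻¹ := by
        funext v
        rw [neg_div, one_div]
      rw [h8]
      refine h9.congr_deriv ?_
      field_simp)
    (fun u hu => by
      have := pow_pos (hpos u hu) 3
      exact div_nonpos_of_nonpos_of_nonneg (by linarith) this.le)
    (by
      refine ContinuousOn.div continuousOn_const (by fun_prop) ?_
      intro u hu
      exact (pow_pos (hpos u hu) 3).ne')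
    (by exact (one_div_pos.2 (pow_pos (hpos _ hL) 2)).le)
  have hmem : ∀ a ∈ SF W V, (1 : ℝ) ≤ a ∧ (a : ℝ) ≤ V := by
    intro a ha
    unfold SF at ha
    rw [mem_filter, mem_Icc] at ha
    exact ⟨by exact_mod_cast ha.1.1, (Nat.le_floor_iff (by linarith)).1 ha.1.2⟩
  have e1 : A1s W V α = ∑ a ∈ SF W V, 1 / (1 + α * Real.log a) / a := by
    unfold A1s GG
    refine Finset.sum_congr rfl fun a ha => ?_
    rw [if_pos (hmem a ha).2]
  have e2 : A2s W V α = ∑ a ∈ SF W V, 1 / (1 + α * Real.log a) ^ 2 / a := by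
    unfold A2s GG
    refine Finset.sum_congr rfl fun a ha => ?_
    rw [if_pos (hmem a ha).2, div_pow, one_pow]
  have e3 : A3s W V α = (A1s W V α - A2s W V α) / α := by
    rw [e1, e2, ← Finset.sum_sub_distrib, Finset.sum_div]
    unfold A3s GG
    refine Finset.sum_congr rfl fun a ha => ?_
    rw [if_pos (hmem a ha).2]
    have h3 : 0 < 1 + α * Real.log a := hpos _ (Real.log_nonneg (hmem a ha).1)
    have h4 : (a : ℝ) ≠ 0 := by
      have := (hmem a ha).1
      linarith
    have h5 := h3.ne'
    field_simp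
    ring
  have f1 : 1 / (1 + α * 0) = 1 := by simp
  have f2 : 1 / (1 + α * 0) ^ 2 = 1 := by simp
  rw [f1] at h1
  rw [f2] at h2
  rw [← e1] at h1
  rw [← e2] at h2
  have g1 : Real.log (1 + α * Real.log V) / α - Real.log (1 + α * 0) / α =
      Real.log (1 + α * Real.log V) / α := by simp
  have g2 : -1 / (α * (1 + α * Real.log V)) - -1 / (α * (1 + α * 0)) =
      1 / α * (1 - 1 / (1 + α * Real.log V)) := by
    have := (hpos _ hL).ne'
    field_simp
    ring
  rw [g1] at h1
  rw [g2] at h2
  have b1 := abs_le.1 h1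
  have b2 := abs_le.1 h2
  have hfrac : 0 ≤ 1 - 1 / (1 + α * Real.log V) := by
    rw [sub_nonneg, div_le_one (hpos _ hL)]
    have := mul_nonneg hα.le hL
    linarith
  have hfrac' : 1 - 1 / (1 + α * Real.log V) ≤ 1 := by
    have := one_div_pos.2 (hpos _ hL)
    linarith
  have hk : 0 ≤ κ * (1 / α * (1 - 1 / (1 + α * Real.log V))) := by positivity
  have hk' : κ * (1 / α * (1 - 1 / (1 + α * Real.log V))) ≤ κ / α := by
    have : κ * (1 / α * (1 - 1 / (1 + α * Real.log V))) =
      κ / α * (1 - 1 / (1 + α * Real.log V)) := by ring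
    rw [this]
    exact mul_le_of_le_one_right (by positivity) hfrac'
  refine ⟨by linarith [b1.1], by linarith [b2.2], ?_, ?_⟩
  · have : κ / α * (1 - 1 / (1 + α * Real.log V)) =
      κ * (1 / α * (1 - 1 / (1 + α * Real.log V))) := by ring
    rw [this]
    linarith [b2.1]
  · rw [e3]
    have h5 : A1s W V α - A2s W V α ≤ κ * (Real.log (1 + α * Real.log V) / α) + 2 * C := by
      linarith [b1.2, b2.1]
    calc (A1s W V α - A2s W V α) / α ≤ (κ * (Real.log (1 + α * Real.log V) / α) + 2 * C) / α :=
          div_le_div_of_nonneg_right h5 hα.le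
      _ = κ * (Real.log (1 + α * Real.log V) / α ^ 2) + 2 * C / α := by
          field_simp

end MTA
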