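import Pool.Agent.H20.MT.Stmts
import Pool.Agent.H20.MT.Rho

/-! # Project MTA, module CLSK: prime sums over classes -/

set_option autoImplicit false

namespace MTA
open Finset

private theorem clsk_tha_mod (c : ℕ) (x : ℝ) (m a : ℕ) : THa c x m (a % m) = THa c x m a := by
  unfold THa
  congr 1
  refine Finset.filter_congr fun p _ => ?_
  simp only [Nat.ModEq, Nat.mod_mod]

open Classical in
theorem CLSK (hCLS : S_CLS) : S_CLSK := by
  intro n w0 c W b hT Y x F k hx hY
  obtain ⟨a, ha, hcop⟩ := hCLS n w0 c W b hT Y F
  have hck : 1 ≤ c k := hT.cpos k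
  have hh' : ∀ t, hh c k.succ t = c k * t + 1 := fun t => by simp [hh]
  have hx0 : 0 < x := by linarith
  have hcx : 0 < (c k : ℝ) * x := mul_pos (by exact_mod_cast hck) hx0
  constructor
  · intro hav
    set m := c k * W * qq F with hm
    have hqpos : 0 < qq F := by
      unfold qq
      refine Finset.prod_pos fun p _ => ?_
      split_ifs
      · have := p.2
        unfold PP at this
        rw [mem_filter] at this
        exact this.2.1.pos
      · exact one_pos
    have hmpos : 0 < m := Nat.mul_pos (Nat.mul_pos hck hT.pos) hqpos
    have hsum : ∑ t ∈ (TT W b x).filter (fun t => Dv c F t), wt x t * th (hh c k.succ t) =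
        THa (c k) x m (c k * a + 1) := by
      unfold THa th
      have e1 : ∑ t ∈ (TT W b x).filter (fun t => Dv c F t),
          wt x t * (if (hh c k.succ t).Prime then Real.log (hh c k.succ t) else 0) =
          ∑ t ∈ ((TT W b x).filter (fun t => Dv c F t)).filter
            (fun t => (c k * t + 1).Prime), Real.log ((c k * t + 1 : ℕ) : ℝ) *
              rho (Real.log ((((c k * t + 1 : ℕ) : ℝ) - 1) / (c k * x))) := by
        rw [sum_filter (p := fun t => (c k * t + 1).Prime)]
        refine Finset.sum_congr rfl fun t _ => ?_
        rw [hh']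
        split_ifs with h
        · unfold wt
          have : (((c k * t + 1 : ℕ) : ℝ) - 1) / (c k * x) = t / x := by
            push_cast
            have h1 : (c k : ℝ) ≠ 0 := by positivity
            field_simp
            ring
          rw [this]
          ring
        · ring
      rw [e1]
      refine Finset.sum_bij (fun t _ => c k * t + 1) ?_ ?_ ?_ ?_
      · intro t ht
        rw [mem_filter, mem_filter] at ht
        obtain ⟨⟨h1, h2⟩, h3⟩ := ht
        unfold TT at h1
        rw [mem_filter, mem_Icc] at h1
        obtain ⟨⟨h4, h5⟩, h6⟩ := h1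
        rw [mem_filter, mem_Icc]
        refine ⟨⟨h3.two_le, ?_⟩, h3, ?_⟩
        · have h7 : (t : ℝ) ≤ 8 * x := (Nat.le_floor_iff (by linarith)).1 h5
          have h8 : c k * t ≤ ⌊8 * (c k : ℝ) * x⌋₊ := by
            apply Nat.le_floor
            push_cast
            have : (c k : ℝ) * t ≤ c k * (8 * x) := mul_le_mul_of_nonneg_left h7 (by positivity)
            linarith
          omega
        · have h7 := (ha t).1 ⟨h6, h2⟩
          have h8 : c k * t ≡ c k * a [MOD c k * (W * qq F)] := Nat.ModEq.mul_left' (c k) h7
          rw [← mul_assoc, ← hm] at h8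
          exact h8.add_right 1
      · intro t _ t' _ h
        have h0 : c k * t + 1 = c k * t' + 1 := h
        have h' : c k * t = c k * t' := by omega
        exact Nat.eq_of_mul_eq_mul_left (by omega) h'
      · intro p hp
        rw [mem_filter, mem_Icc] at hp
        obtain ⟨⟨h1, h2⟩, h3, h4⟩ := hp
        have h5 : c k ∣ m := by
          rw [hm, mul_assoc]
          exact Dvd.intro _ rfl
        have h6 : p ≡ c k * a + 1 [MOD c k] := h4.of_dvd h5
        have h7 : p ≡ 1 [MOD c k] := by
          have : c k * a + 1 ≡ 1 [MOD c k] := by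
            simp [Nat.ModEq]
          exact h6.trans this
        have h8 : c k ∣ p - 1 := (Nat.modEq_iff_dvd' (by omega)).1 h7.symm
        obtain ⟨t, ht⟩ := h8
        have hpt : p = c k * t + 1 := by omega
        refine ⟨t, ?_, hpt.symm⟩
        have ht1 : 1 ≤ t := by
          rcases Nat.eq_zero_or_pos t with h | h
          · subst h
            simp at ht
            omega
          · exact h
        have h9 : t ≡ a [MOD W * qq F] := by
          rw [hpt] at h4
          have h10 : c k * t ≡ c k * a [MOD m] := Nat.ModEq.add_right_cancel' 1 h4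
          rw [hm, mul_assoc] at h10
          exact Nat.ModEq.mul_left_cancel' (by omega) h10
        obtain ⟨h11, h12⟩ := (ha t).2 h9
        rw [mem_filter, mem_filter]
        refine ⟨⟨?_, h12⟩, ?_⟩
        · unfold TT
          rw [mem_filter, mem_Icc]
          refine ⟨⟨ht1, ?_⟩, h11⟩
          apply Nat.le_floor
          have h13 : c k * t ≤ ⌊8 * (c k : ℝ) * x⌋₊ := by omega
          have h14 : ((c k * t : ℕ) : ℝ) ≤ 8 * c k * x :=
            (Nat.le_floor_iff (by positivity)).1 h13
          push_cast at h14
          have h15 : (0 : ℝ) < c k := by exact_mod_cast hck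
          have h16 : (c k : ℝ) * t ≤ c k * (8 * x) := by linarith
          exact le_of_mul_le_mul_left h16 h15
        · rw [← hpt]
          exact h3
      · intro t _
        rfl
    rw [hsum]
    have hco : (c k * a + 1).Coprime m := by
      have h1 := hcop k.succ hav
      rw [hh'] at h1
      rw [hm, mul_assoc]
      refine Nat.Coprime.mul_right ?_ h1
      have : Nat.Coprime (c k * a + 1) (c k) := by
        rw [Nat.coprime_comm]
        simp
      exact this
    have hco' : ((c k * a + 1) % m).Coprime m := by
      have : Nat.gcd ((c k * a + 1) % m) m = Nat.gcd (c k * a + 1) m := by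
        rw [Nat.gcd_comm (c k * a + 1) m, Nat.gcd_rec m, Nat.gcd_comm]
      unfold Nat.Coprime
      rw [this]
      exact hco
    have := le_Emax (c k) x m ((c k * a + 1) % m) (Nat.mod_lt _ hmpos) hco'
    unfold EE at this
    rw [clsk_tha_mod] at this
    exact this
  · intro hav
    unfold Avoid at hav
    push Not at hav
    obtain ⟨p, hp⟩ := hav
    refine Finset.sum_eq_zero fun t ht => ?_
    rw [mem_filter] at ht
    obtain ⟨h1, h2⟩ := ht
    have hdvd := h2 p _ hp
    unfold th
    split_ifs with hpr
    swap
    · ring
    have hpP := p.2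
    unfold PP at hpP
    rw [mem_filter, mem_Icc] at hpP
    have heq : (p : ℕ) = hh c k.succ t := (Nat.prime_dvd_prime_iff_eq hpP.2.1 hpr).1 hdvd
    rw [hh'] at heq
    unfold TT at h1
    rw [mem_filter, mem_Icc] at h1
    have hpY : ((p : ℕ) : ℝ) ≤ Y := by
      have hY0 : 0 ≤ Y := by
        by_contra hneg
        push Not at hneg
        have : ⌊Y⌋₊ = 0 := Nat.floor_of_nonpos hneg.le
        omega
      exact (Nat.le_floor_iff hY0).1 hpP.1.2
    have ht1 : (1 : ℝ) ≤ t := by exact_mod_cast h1.1.1
    have htp : (t : ℝ) ≤ (p : ℕ) := by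
      rw [heq]
      push_cast
      have : (1 : ℝ) ≤ c k := by exact_mod_cast hck
      nlinarith
    have htx : (t : ℝ) / x < 1 / 8 := by
      rw [div_lt_iff₀ hx0]
      linarith
    have htpos : (0 : ℝ) < t / x := by positivity
    have hlog : Real.log (t / x) < -2 := by
      have h3 : Real.log ((t : ℝ) / x) < Real.log (1 / 8) := Real.log_lt_log htpos htx
      have h4 : Real.log (1 / 8) = - (3 * Real.log 2) := by
        rw [show (1 / 8 : ℝ) = (2 ^ 3)⁻¹ by norm_num, Real.log_inv, Real.log_pow]
        norm_num
      have h5 := Real.log_two_gt_d9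
      linarith
    unfold wt
    rw [rho_zero (by rw [abs_of_neg (by linarith)]; linarith)]
    ring

end MTA
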