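import Pool.Agent.H20.MT.Stmts

/-! # Project MTA, module PHIN: from `1/φ` to `1/a` -/

set_option autoImplicit false

namespace MTA
open Finset

/-- the primes up to `y` outside `W` -/
private noncomputable def phT (W : ℕ) (y : ℝ) : Finset ℕ :=
  (Icc 2 ⌊y⌋₊).filter (fun p => p.Prime ∧ ¬ p ∣ W)

private theorem ph_tel (w0 N : ℕ) (hw : 1 ≤ w0) :
    ∑ m ∈ Ioc w0 N, 1 / ((m : ℝ) * (m - 1)) ≤ 1 / w0 := by
  have hw' : (0 : ℝ) < w0 := by exact_mod_cast hw
  rcases le_or_gt w0 N with h | h
  · have key : ∑ m ∈ Ioc w0 N, 1 / ((m : ℝ) * (m - 1)) = 1 / w0 - 1 / N := by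
      induction N, h using Nat.le_induction with
      | base => simp
      | succ N hN ih =>
        rw [Finset.sum_Ioc_succ_top (by omega), ih]
        have h1 : (0 : ℝ) < N := by
          have : 0 < N := by omega
          exact_mod_cast this
        push_cast
        have h2 : ((N : ℝ) + 1 - 1) = N := by ring
        rw [h2]
        field_simp
        ring
    rw [key]
    have : (0 : ℝ) ≤ 1 / N := by positivity
    linarith
  · rw [Ioc_eq_empty (by omega), sum_empty]
    positivity

private theorem ph_K (w0 W : ℕ) (hw : 1 ≤ w0) (hW : ∀ p : ℕ, p.Prime → p ≤ w0 → p ∣ W) (y : ℝ) :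
    ∑ S ∈ (phT W y).powerset, ∏ p ∈ S, (1 : ℝ) / (p * (p - 1)) ≤ Real.exp (1 / w0) := by
  have hT : ∀ p ∈ phT W y, p.Prime ∧ w0 < p ∧ p ≤ ⌊y⌋₊ := by
    intro p hp
    unfold phT at hp
    rw [mem_filter, mem_Icc] at hp
    refine ⟨hp.2.1, ?_, hp.1.2⟩
    by_contra h
    exact hp.2.2 (hW p hp.2.1 (by omega))
  have hnn : ∀ p ∈ phT W y, (0 : ℝ) ≤ 1 / ((p : ℝ) * (p - 1)) := by
    intro p hp
    have h1 : (2 : ℝ) ≤ p := by exact_mod_cast (hT p hp).1.two_le
    have : (0 : ℝ) ≤ (p : ℝ) * (p - 1) := mul_nonneg (by linarith) (by linarith)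
    positivity
  rw [← Finset.prod_one_add]
  calc ∏ p ∈ phT W y, (1 + (1 : ℝ) / (p * (p - 1)))
      ≤ ∏ p ∈ phT W y, Real.exp ((1 : ℝ) / (p * (p - 1))) := by
        refine Finset.prod_le_prod (fun p hp => by linarith [hnn p hp]) fun p hp => ?_
        have := Real.add_one_le_exp ((1 : ℝ) / (p * (p - 1)))
        linarith
    _ = Real.exp (∑ p ∈ phT W y, (1 : ℝ) / (p * (p - 1))) := (Real.exp_sum _ _).symm
    _ ≤ Real.exp (1 / w0) := by
        apply Real.exp_le_exp.2
        refine le_trans ?_ (ph_tel w0 ⌊y⌋₊ hw)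
        refine Finset.sum_le_sum_of_subset_of_nonneg ?_ ?_
        · intro p hp
          rw [mem_Ioc]
          exact ⟨(hT p hp).2.1, (hT p hp).2.2⟩
        · intro m hm _
          rw [mem_Ioc] at hm
          have h1 : (1 : ℝ) ≤ m := by
            have : 1 ≤ m := by omega
            exact_mod_cast this
          have : (0 : ℝ) ≤ (m : ℝ) * (m - 1) := mul_nonneg (by linarith) (by linarith)
          positivity

private theorem ph_mem {W a : ℕ} {y : ℝ} (h : a ∈ SF W y) :
    1 ≤ a ∧ a ≤ ⌊y⌋₊ ∧ Squarefree a ∧ a.Coprime W := by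
  unfold SF at h
  rw [mem_filter, mem_Icc] at h
  exact ⟨h.1.1, h.1.2, h.2⟩

private theorem ph_tot {a : ℕ} (h1 : 1 ≤ a) (hs : Squarefree a) :
    1 / (a.totient : ℝ) = 1 / a * ∑ S ∈ a.primeFactors.powerset, ∏ p ∈ S, (1 : ℝ) / (p - 1) := by
  rw [← Finset.prod_one_add]
  have e1 := Nat.totient_mul_prod_primeFactors a
  rw [Nat.prod_primeFactors_of_squarefree hs] at e1
  have e2 : a.totient = ∏ p ∈ a.primeFactors, (p - 1) := by
    rw [mul_comm] at e1
    exact Nat.eq_of_mul_eq_mul_left (by omega) e1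
  have e3 : (a.totient : ℝ) = ∏ p ∈ a.primeFactors, ((p : ℝ) - 1) := by
    rw [e2]
    push_cast
    refine Finset.prod_congr rfl fun p hp => ?_
    have := (Nat.prime_of_mem_primeFactors hp).one_le
    push_cast [Nat.cast_sub this]
    ring
  have e4 : (a : ℝ) = ∏ p ∈ a.primeFactors, (p : ℝ) := by
    conv_lhs => rw [← Nat.prod_primeFactors_of_squarefree hs]
    push_cast
    rfl
  have hne : ∀ p ∈ a.primeFactors, (p : ℝ) - 1 ≠ 0 ∧ (p : ℝ) ≠ 0 := by
    intro p hp
    have h2 : (2 : ℝ) ≤ p := by exact_mod_cast (Nat.prime_of_mem_primeFactors hp).two_le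
    constructor
    · linarith
    · linarith
  have e5 : (a : ℝ) = (a.totient : ℝ) * ∏ p ∈ a.primeFactors, (1 + (1 : ℝ) / (p - 1)) := by
    rw [e3, ← Finset.prod_mul_distrib, e4]
    refine Finset.prod_congr rfl fun p hp => ?_
    have := (hne p hp).1
    field_simp
    ring
  have h3 : (a.totient : ℝ) ≠ 0 := by
    have : 0 < a.totient := Nat.totient_pos.2 (by omega)
    positivity
  have h4 : (a : ℝ) ≠ 0 := by positivity
  field_simp
  linarith

private theorem ph_main (w0 W : ℕ) (hw : 1 ≤ w0) (hW : ∀ p : ℕ, p.Prime → p ≤ w0 → p ∣ W)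
    (y B : ℝ) (f : ℕ → ℝ) (hf : ∀ a, 0 ≤ f a) (hB0 : 0 ≤ B)
    (hB : ∀ d : ℕ, 1 ≤ d → ∑ a ∈ SF W (y / d), f (d * a) / a ≤ B) :
    ∑ a ∈ SF W y, f a / (a.totient : ℝ) ≤ Real.exp (1 / w0) * B := by
  classical
  have hsub : ∀ a ∈ SF W y, a.primeFactors ⊆ phT W y := by
    intro a ha p hp
    obtain ⟨h1, h2, h3, h4⟩ := ph_mem ha
    unfold phT
    rw [mem_filter, mem_Icc]
    have hpr := Nat.prime_of_mem_primeFactors hp
    have hdv := Nat.dvd_of_mem_primeFactors hp
    refine ⟨⟨hpr.two_le, le_trans (Nat.le_of_dvd (by omega) hdv) h2⟩, hpr, fun h5 => ?_⟩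
    have := Nat.dvd_gcd hdv h5
    rw [h4] at this
    exact hpr.one_lt.ne' (Nat.dvd_one.1 this)
  have e1 : ∑ a ∈ SF W y, f a / (a.totient : ℝ) =
      ∑ S ∈ (phT W y).powerset, (∏ p ∈ S, (1 : ℝ) / (p - 1)) *
        ∑ a ∈ (SF W y).filter (fun a => S ⊆ a.primeFactors), f a / a := by
    have : ∀ a ∈ SF W y, f a / (a.totient : ℝ) = ∑ S ∈ (phT W y).powerset,
        if S ⊆ a.primeFactors then (∏ p ∈ S, (1 : ℝ) / (p - 1)) * (f a / a) else 0 := by
      intro a ha
      obtain ⟨h1, h2, h3, h4⟩ := ph_mem ha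
      rw [← Finset.sum_filter]
      have e2 : (phT W y).powerset.filter (fun S => S ⊆ a.primeFactors) =
          a.primeFactors.powerset := by
        ext S
        rw [mem_filter, mem_powerset, mem_powerset]
        exact ⟨fun h => h.2, fun h => ⟨h.trans (hsub a ha), h⟩⟩
      rw [e2, ← Finset.sum_mul, div_eq_mul_one_div, ph_tot h1 h3]
      ring
    rw [Finset.sum_congr rfl this, Finset.sum_comm]
    refine Finset.sum_congr rfl fun S _ => ?_
    rw [Finset.mul_sum, Finset.sum_filter]
  rw [e1]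
  have e3 : ∀ S ∈ (phT W y).powerset, (∏ p ∈ S, (1 : ℝ) / (p - 1)) *
      ∑ a ∈ (SF W y).filter (fun a => S ⊆ a.primeFactors), f a / a ≤
      (∏ p ∈ S, (1 : ℝ) / (p * (p - 1))) * B := by
    intro S hS
    rw [mem_powerset] at hS
    have hpr : ∀ p ∈ S, p.Prime := by
      intro p hp
      have := hS hp
      unfold phT at this
      rw [mem_filter] at this
      exact this.2.1
    set d := ∏ p ∈ S, p with hd
    have hd1 : 1 ≤ d := Finset.prod_pos fun p hp => (hpr p hp).pos
    have hdR : (0 : ℝ) < d := by exact_mod_cast hd1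
    have hdvd : ∀ a ∈ (SF W y).filter (fun a => S ⊆ a.primeFactors), d ∣ a := by
      intro a ha
      rw [mem_filter] at ha
      have h3 := (ph_mem ha.1).2.2.1
      have : ∏ p ∈ S, p ∣ ∏ p ∈ a.primeFactors, p := Finset.prod_dvd_prod_of_subset _ _ _ ha.2
      rw [Nat.prod_primeFactors_of_squarefree h3] at this
      exact this
    have e4 : ∑ a ∈ (SF W y).filter (fun a => S ⊆ a.primeFactors), f a / a ≤ B / d := by
      have hinj : Set.InjOn (fun a => a / d)
          ((SF W y).filter (fun a => S ⊆ a.primeFactors) : Finset ℕ) := by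
        intro a ha b hb hab
        have h1 := hdvd a ha
        have h2 := hdvd b hb
        have hab' : a / d = b / d := hab
        rw [← Nat.div_mul_cancel h1, ← Nat.div_mul_cancel h2, hab']
      have e5 : ∑ a ∈ (SF W y).filter (fun a => S ⊆ a.primeFactors), f a / a =
          ∑ b ∈ ((SF W y).filter (fun a => S ⊆ a.primeFactors)).image (fun a => a / d),
            (f (d * b) / b) / d := by
        rw [Finset.sum_image hinj]
        refine Finset.sum_congr rfl fun a ha => ?_
        have h1 := hdvd a ha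
        rw [Nat.mul_div_cancel' h1, Nat.cast_div h1 hdR.ne']
        rw [mem_filter] at ha
        have h2 : (0 : ℝ) < a := by exact_mod_cast (ph_mem ha.1).1
        field_simp
      rw [e5, ← Finset.sum_div]
      refine div_le_div_of_nonneg_right (le_trans ?_ (hB d hd1)) hdR.le
      refine Finset.sum_le_sum_of_subset_of_nonneg ?_ ?_
      · intro b hb
        rw [mem_image] at hb
        obtain ⟨a, ha, rfl⟩ := hb
        have h1 := hdvd a ha
        rw [mem_filter] at ha
        obtain ⟨h2, h3, h4, h5⟩ := ph_mem ha.1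
        unfold SF
        rw [mem_filter, mem_Icc]
        have h6 : a / d ∣ a := Nat.div_dvd_of_dvd h1
        have hy : (a : ℝ) ≤ y := by
          have hy0 : 0 ≤ y := by
            by_contra hneg
            push Not at hneg
            rw [Nat.floor_of_nonpos hneg.le] at h3
            omega
          exact (Nat.le_floor_iff hy0).1 h3
        refine ⟨⟨Nat.div_pos (Nat.le_of_dvd (by omega) h1) (by omega), ?_⟩,
          h4.squarefree_of_dvd h6, Nat.Coprime.coprime_dvd_left h6 h5⟩
        apply Nat.le_floor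
        rw [Nat.cast_div h1 hdR.ne']
        exact div_le_div_of_nonneg_right hy hdR.le
      · intro b _ _
        exact div_nonneg (hf _) (Nat.cast_nonneg _)
    have h7 : (0 : ℝ) ≤ ∏ p ∈ S, (1 : ℝ) / (p - 1) := by
      refine Finset.prod_nonneg fun p hp => ?_
      have : (2 : ℝ) ≤ p := by exact_mod_cast (hpr p hp).two_le
      have : (0 : ℝ) ≤ (p : ℝ) - 1 := by linarith
      positivity
    calc (∏ p ∈ S, (1 : ℝ) / (p - 1)) *
        ∑ a ∈ (SF W y).filter (fun a => S ⊆ a.primeFactors), f a / a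
        ≤ (∏ p ∈ S, (1 : ℝ) / (p - 1)) * (B / d) := mul_le_mul_of_nonneg_left e4 h7
      _ = (∏ p ∈ S, (1 : ℝ) / (p * (p - 1))) * B := by
        have h8 : ∏ p ∈ S, (1 : ℝ) / (p * (p - 1)) =
            (∏ p ∈ S, (1 : ℝ) / (p - 1)) * (1 / d) := by
          rw [hd]
          push_cast
          rw [one_div (∏ p ∈ S, (p : ℝ)), ← Finset.prod_inv_distrib, ← Finset.prod_mul_distrib]
          refine Finset.prod_congr rfl fun p _ => ?_
          rw [one_div, mul_inv, one_div, mul_comm]
        rw [h8]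
        ring
  refine le_trans (Finset.sum_le_sum e3) ?_
  rw [← Finset.sum_mul]
  exact mul_le_mul_of_nonneg_right (ph_K w0 W hw hW y) hB0

private theorem ph_sub (W : ℕ) (y : ℝ) (d : ℕ) (hd : 1 ≤ d) : SF W (y / d) ⊆ SF W y := by
  unfold SF
  apply Finset.filter_subset_filter
  apply Finset.Icc_subset_Icc_right
  have hd' : (1 : ℝ) ≤ d := by exact_mod_cast hd
  rcases le_or_gt 0 y with h | h
  · exact Nat.floor_le_floor (div_le_self h hd')
  · have : y / d ≤ 0 := div_nonpos_of_nonpos_of_nonneg h.le (by linarith)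
    rw [Nat.floor_of_nonpos this]
    exact Nat.zero_le _

private theorem ph_exp (n : ℕ) : Real.exp (1 / ((2 * n + 2 : ℕ) : ℝ)) ≤ 2 := by
  have h1 : (1 : ℝ) / ((2 * n + 2 : ℕ) : ℝ) ≤ 1 / 2 := by
    apply one_div_le_one_div_of_le (by norm_num)
    push_cast
    have : (0 : ℝ) ≤ n := Nat.cast_nonneg n
    linarith
  have h2 : Real.exp (1 / 2) ≤ 2 := by
    have h3 : (1 / 2 : ℝ) ≤ Real.log 2 := by
      have := Real.log_two_gt_d9
      linarith
    calc Real.exp (1 / 2) ≤ Real.exp (Real.log 2) := Real.exp_le_exp.2 h3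
      _ = 2 := Real.exp_log (by norm_num)
  exact (Real.exp_le_exp.2 h1).trans h2

theorem PHIN : S_PHIN := by
  intro n
  refine ⟨2 * n + 2, fun W hW hp => ⟨?_, ?_, ?_⟩⟩
  · intro V α hα
    have hGn : ∀ a, 0 ≤ GG α V a := by
      intro a
      unfold GG
      split_ifs
      · have h1 : 0 ≤ Real.log a := by
          rcases Nat.eq_zero_or_pos a with h | h
          · subst h
            simp
          · exact Real.log_nonneg (by exact_mod_cast h)
        have : 0 ≤ α * Real.log a := mul_nonneg hα h1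
        positivity
      · exact le_rfl
    have hGm : ∀ d a : ℕ, 1 ≤ d → 1 ≤ a → GG α V (d * a) ≤ GG α V a := by
      intro d a hd ha
      have hda : (a : ℝ) ≤ ((d * a : ℕ) : ℝ) := by
        exact_mod_cast Nat.le_mul_of_pos_left a hd
      by_cases h : ((d * a : ℕ) : ℝ) ≤ V
      · unfold GG
        rw [if_pos h, if_pos (hda.trans h)]
        have h1 : 0 ≤ Real.log a := Real.log_nonneg (by exact_mod_cast ha)
        have h2 : Real.log a ≤ Real.log ((d * a : ℕ) : ℝ) :=
          Real.log_le_log (by exact_mod_cast ha) hda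
        have h3 : 0 ≤ α * Real.log a := mul_nonneg hα h1
        have h4 : α * Real.log a ≤ α * Real.log ((d * a : ℕ) : ℝ) :=
          mul_le_mul_of_nonneg_left h2 hα
        exact one_div_le_one_div_of_le (by linarith) (by linarith)
      · have : GG α V (d * a) = 0 := by
          unfold GG
          rw [if_neg h]
        rw [this]
        exact hGn a
    have hA0 : 0 ≤ A2s W V α := by
      unfold A2s
      exact Finset.sum_nonneg fun a _ => div_nonneg (sq_nonneg _) (Nat.cast_nonneg _)
    have key := ph_main (2 * n + 2) W (by omega) hp V (A2s W V α) (fun a => GG α V a ^ 2)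
      (fun a => sq_nonneg _) hA0 (fun d hd => by
        unfold A2s
        calc ∑ a ∈ SF W (V / d), GG α V (d * a) ^ 2 / (a : ℝ)
            ≤ ∑ a ∈ SF W (V / d), GG α V a ^ 2 / (a : ℝ) := by
              refine Finset.sum_le_sum fun a ha => ?_
              refine div_le_div_of_nonneg_right ?_ (Nat.cast_nonneg _)
              exact pow_le_pow_left₀ (hGn _) (hGm d a hd (ph_mem ha).1) 2
          _ ≤ ∑ a ∈ SF W V, GG α V a ^ 2 / (a : ℝ) :=
              Finset.sum_le_sum_of_subset_of_nonneg (ph_sub W V d hd) fun a _ _ =>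
                div_nonneg (sq_nonneg _) (Nat.cast_nonneg _))
    have h0 : 0 ≤ ∑ a ∈ SF W V, GG α V a ^ 2 / (a.totient : ℝ) :=
      Finset.sum_nonneg fun a _ => div_nonneg (sq_nonneg _) (Nat.cast_nonneg _)
    calc (∑ a ∈ SF W V, GG α V a ^ 2 / (a.totient : ℝ)) ^ (n - 1)
        ≤ (Real.exp (1 / ((2 * n + 2 : ℕ) : ℝ)) * A2s W V α) ^ (n - 1) :=
          pow_le_pow_left₀ h0 key _
      _ = Real.exp (1 / ((2 * n + 2 : ℕ) : ℝ)) ^ (n - 1) * A2s W V α ^ (n - 1) := mul_pow _ _ _
      _ ≤ 2 * A2s W V α ^ (n - 1) := by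
          refine mul_le_mul_of_nonneg_right ?_ (pow_nonneg hA0 _)
          rw [← Real.exp_nat_mul]
          have h1 : ((n - 1 : ℕ) : ℝ) * (1 / ((2 * n + 2 : ℕ) : ℝ)) ≤ 1 / 2 := by
            have h2 : ((n - 1 : ℕ) : ℝ) ≤ n := by exact_mod_cast Nat.sub_le n 1
            have h3 : (0 : ℝ) < ((2 * n + 2 : ℕ) : ℝ) := by positivity
            rw [mul_one_div, div_le_div_iff₀ h3 (by norm_num)]
            push_cast
            linarith
          have h3 : (1 / 2 : ℝ) ≤ Real.log 2 := by
            have := Real.log_two_gt_d9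
            linarith
          calc Real.exp (((n - 1 : ℕ) : ℝ) * (1 / ((2 * n + 2 : ℕ) : ℝ)))
              ≤ Real.exp (Real.log 2) := Real.exp_le_exp.2 (h1.trans h3)
            _ = 2 := Real.exp_log (by norm_num)
  · intro y
    have hM0 : 0 ≤ Msum W y := by
      unfold Msum
      exact Finset.sum_nonneg fun a _ => by positivity
    have key := ph_main (2 * n + 2) W (by omega) hp y (Msum W y) (fun _ => 1)
      (fun a => zero_le_one) hM0 (fun d hd => by
        unfold Msum
        exact Finset.sum_le_sum_of_subset_of_nonneg (ph_sub W y d hd) fun a _ _ => by positivity)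
    exact key.trans (mul_le_mul_of_nonneg_right (ph_exp n) hM0)
  · intro z Win hz hWin h y hy
    have key := ph_main (2 * n + 2) W (by omega) hp y Win (fun a => if y / z < (a : ℝ) then 1 else 0)
      (fun a => by split_ifs <;> norm_num) hWin (fun d hd => by
        have hd' : (0 : ℝ) < d := by exact_mod_cast hd
        have hz0 : 0 < z := by linarith
        refine le_trans (le_of_eq ?_) (h (y / d) (by positivity))
        have hsub : SF W (y / d / z) ⊆ SF W (y / d) := by
          unfold SF
          apply Finset.filter_subset_filter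
          apply Finset.Icc_subset_Icc_right
          exact Nat.floor_le_floor (div_le_self (by positivity) hz)
        unfold Msum
        have hsd : SF W (y / d) \ SF W (y / d / z) =
            (SF W (y / d)).filter (fun a : ℕ => y / z < ((d * a : ℕ) : ℝ)) := by
          ext a
          rw [mem_sdiff, mem_filter]
          refine and_congr_right fun ha => ?_
          have hm := ph_mem ha
          have h1 : (a ∈ SF W (y / d / z)) ↔ (a : ℝ) ≤ y / d / z := by
            unfold SF
            rw [mem_filter, mem_Icc, Nat.le_floor_iff (by positivity)]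
            exact ⟨fun h => h.1.2, fun h => ⟨⟨hm.1, h⟩, hm.2.2⟩⟩
          rw [h1, not_le]
          have h2 : y / d / z = (y / z) / d := by
            rw [div_div, div_div, mul_comm]
          rw [h2, div_lt_iff₀ hd']
          push_cast
          rw [mul_comm (a : ℝ)]
        have e9 : ∑ a ∈ SF W (y / d), (1 : ℝ) / a =
            ∑ a ∈ (SF W (y / d)).filter (fun a : ℕ => y / z < ((d * a : ℕ) : ℝ)), (1 : ℝ) / a +
              ∑ a ∈ SF W (y / d / z), (1 : ℝ) / a := by
          rw [← Finset.sum_sdiff hsub, hsd]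
        rw [e9, add_sub_cancel_right, Finset.sum_filter]
        refine Finset.sum_congr rfl fun a _ => ?_
        split_ifs
        · rfl
        · simp)
    have e1 : ∑ a ∈ (SF W y).filter (fun a : ℕ => y / z < (a : ℝ)), 1 / (a.totient : ℝ) =
        ∑ a ∈ SF W y, (if y / z < (a : ℝ) then (1 : ℝ) else 0) / (a.totient : ℝ) := by
      rw [Finset.sum_filter]
      refine Finset.sum_congr rfl fun a _ => ?_
      split_ifs
      · rfl
      · simp
    rw [e1]
    exact key.trans (mul_le_mul_of_nonneg_right (ph_exp n) hWin)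

end MTA
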